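import Pool.Agent.MP_0e6a9f_ag.H32.Van

/-! Tensor products of graded rings: charts, projections, vanishing of local cohomology. -/

set_option autoImplicit false
set_option linter.unusedSectionVars false

open FMD FMD.DG TensorProduct Filter

noncomputable section
namespace FMX
namespace PR

variable {K : Type} [Field K]

lemma map_inj {A B C D : Type} [Ring A] [Ring B] [Ring C] [Ring D] [Algebra K A] [Algebra K B]
    [Algebra K C] [Algebra K D] {f : A →ₐ[K] C} {g : B →ₐ[K] D} (hf : Function.Injective f)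
    (hg : Function.Injective g) : Function.Injective (Algebra.TensorProduct.map f g) :=
  TensorProduct.map_injective_of_flat_flat f.toLinearMap g.toLinearMap hf hg

variable {R R₁ R₂ : Type} [CommRing R] [CommRing R₁] [CommRing R₂] [Algebra K R] [Algebra K R₁]
  [Algebra K R₂]

lemma plAt_dom {y : R} (h : PLAt K y) : IsDomain R := by
  obtain ⟨T, _, _, ψ, τ, _, f, h1, -, -, h4, h5⟩ := h
  have : Nontrivial T := h4.nontrivial
  have : NoZeroDivisors T := ⟨fun {t t'} e => by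
    obtain ⟨p, w, hw, e1⟩ := h5 t
    obtain ⟨p', w', hw', e2⟩ := h5 t'
    have h0 : p * p' = 0 :=
      h4 (by rw [map_mul, map_zero, ← e1, ← e2, mul_mul_mul_comm, e, zero_mul])
    rcases mul_eq_zero.1 h0 with rfl | rfl
    · exact Or.inl (hw.mul_left_eq_zero.1 (e1.trans (map_zero f)))
    · exact Or.inr (hw'.mul_left_eq_zero.1 (e2.trans (map_zero f)))⟩
  have : IsDomain T := NoZeroDivisors.to_isDomain T
  exact h1.isDomain ψ

lemma isUnit_tmul {a : R₁} {b : R₂} (ha : IsUnit a) (hb : IsUnit b) : IsUnit (a ⊗ₜ[K] b) := by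
  simpa using (ha.map (Algebra.TensorProduct.includeLeft (R := K) (S := K) (B := R₂))).mul
    (hb.map (Algebra.TensorProduct.includeRight (R := K) (A := R₁)))

lemma plAt_tmul {y₁ : R₁} {y₂ : R₂} (h₁ : PLAt K y₁) (h₂ : PLAt K y₂) :
    PLAt K (y₁ ⊗ₜ[K] y₂) := by
  obtain ⟨T₁, _, _, ψ₁, τ₁, _, f₁, a1, a2, a3, a4, a5⟩ := h₁
  obtain ⟨T₂, _, _, ψ₂, τ₂, _, f₂, b1, b2, b3, b4, b5⟩ := h₂
  let e := MvPolynomial.tensorEquivSum K τ₁ τ₂ K
  refine ⟨T₁ ⊗[K] T₂, inferInstance, inferInstance, Algebra.TensorProduct.map ψ₁ ψ₂, τ₁ ⊕ τ₂,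
    inferInstance, (Algebra.TensorProduct.map f₁ f₂).comp e.symm.toAlgHom, map_inj a1 b1,
    isUnit_tmul a2 b2, fun t => ?_, (map_inj a4 b4).comp e.symm.injective, fun t => ?_⟩
  · induction t with
    | zero => exact ⟨0, 0, by simp⟩
    | tmul t₁ t₂ =>
      obtain ⟨k, r, e1⟩ := a3 t₁
      obtain ⟨l, s, e2⟩ := b3 t₂
      refine ⟨k + l, (r * y₁ ^ l) ⊗ₜ (s * y₂ ^ k), ?_⟩
      simp only [Algebra.TensorProduct.map_tmul, Algebra.TensorProduct.tmul_pow,
        Algebra.TensorProduct.tmul_mul_tmul, map_mul, map_pow, ← e1, ← e2]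
      congr 1 <;> ring
    | add t t' ht ht' =>
      obtain ⟨k, r, e1⟩ := ht
      obtain ⟨l, s, e2⟩ := ht'
      refine ⟨k + l, r * (y₁ ⊗ₜ y₂) ^ l + s * (y₁ ⊗ₜ y₂) ^ k, ?_⟩
      rw [map_add, map_mul, map_mul, map_pow, map_pow, ← e1, ← e2]
      ring
  · suffices h : ∃ p w, IsUnit (Algebra.TensorProduct.map f₁ f₂ w) ∧
        t * Algebra.TensorProduct.map f₁ f₂ w = Algebra.TensorProduct.map f₁ f₂ p by
      obtain ⟨p, w, h1, h2⟩ := h
      exact ⟨e p, e w, by simpa using h1, by simpa using h2⟩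
    induction t with
    | zero => exact ⟨0, 1, by simp, by simp⟩
    | tmul t₁ t₂ =>
      obtain ⟨p, w, u1, e1⟩ := a5 t₁
      obtain ⟨p', w', u2, e2⟩ := b5 t₂
      exact ⟨p ⊗ₜ p', w ⊗ₜ w', isUnit_tmul u1 u2, by
        simp only [Algebra.TensorProduct.map_tmul, Algebra.TensorProduct.tmul_mul_tmul, e1, e2]⟩
    | add t t' ht ht' =>
      obtain ⟨p, w, u1, e1⟩ := ht
      obtain ⟨p', w', u2, e2⟩ := ht'
      refine ⟨p * w' + p' * w, w * w', by rw [map_mul]; exact u1.mul u2, ?_⟩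
      rw [map_add, map_mul, map_mul, map_mul, ← e1, ← e2]
      ring

/-- The projections to the graded pieces. -/
lemma exists_pr {G : Type} {A : G → Submodule K R} (span : ∀ r, r ∈ ⨆ g, A g)
    (ind : Ind fun g => (A g).toAddSubgroup) : ∃ p : G → R →ₗ[K] R,
    (∀ g, ∀ r ∈ A g, p g r = r) ∧ ∀ g h, h ≠ g → ∀ r ∈ A h, p g r = 0 := by
  classical
  have hI : DirectSum.IsInternal A := isInternal_of_ind ind fun m => by
    induction span m using Submodule.iSup_induction' with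
    | mem g x hx => exact AddSubgroup.mem_iSup_of_mem g hx
    | zero => exact zero_mem _
    | add x y _ _ hx hy => exact add_mem hx hy
  refine ⟨fun g => (A g).subtype ∘ₗ DirectSum.component K G (fun g => A g) g ∘ₗ
    (LinearEquiv.ofBijective (DirectSum.coeLinearMap A) hI).symm.toLinearMap,
    fun g r hr => ?_, fun g h hne r hr => ?_⟩
  · exact congrArg Subtype.val (hI.ofBijective_coeLinearMap_of_mem hr)
  · exact congrArg Subtype.val (hI.ofBijective_coeLinearMap_of_mem_ne hne hr)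

section fin
variable [CharP K 2] {G : Type} [AddCommGroup G] {A : G → Submodule K R} [SetLike.GradedMonoid A]
  {β : Type}

/-- The stable Koszul complex is finitary. -/
lemma fin_gam {N : DG A} {e : Finset β → N.M →ₗ[R] N.M}
    (h : ∀ g n, ∀ m ∈ N.gr g n, ∀ᶠ S in atTop, e S m = m) : ∀ (xs : List (HE A)) g n,
    ∀ m ∈ ((gamF xs).obj N).gr g n, ∀ᶠ S in atTop, (gamF xs).map N N (e S) m = m
  | [] => h
  | x :: xs => by
    rintro g n ⟨m, u⟩ ⟨hm, k, m', hm', e'⟩
    filter_upwards [fin_gam h xs _ _ m hm, fin_gam h xs _ _ m' hm'] with S h1 h2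
    refine Prod.ext h1 (sub_eq_zero.1 (loc_inj x k ?_))
    change x.x ^ k • (locMap x _ _ ((gamF xs).map N N (e S)) u - u) = 0
    rw [smul_sub, ← map_smul, e', locMap_toLoc, h2, sub_self]

/-- A module that is a sum of copies of a module without local cohomology. -/
lemma van_of_sum {N P : DG A} {xs : List (HE A)} {U : Set G} {p : β → N.M →ₗ[R] P.M}
    {s : β → P.M →ₗ[R] N.M} (hp : ∀ b, IsHom N P (p b)) (hs : ∀ b, IsHom P N (s b))
    (h : ∀ g n, ∀ m ∈ N.gr g n, ∀ᶠ S in atTop, (∑ b ∈ S, s b ∘ₗ p b) m = m) (hP : Van xs U P) :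
    Van xs U N := by
  classical
  intro g hg n z hz h0
  obtain ⟨S, hS⟩ := (fin_gam h xs g n z hz).exists
  rw [← hS, map_sum, LinearMap.sum_apply]
  refine Finset.sum_induction _ _ (fun _ _ => Cx.Bd.add) (Cx.Bd.zero n) fun b _ => ?_
  rw [← DGF.comp_apply]
  exact (((gamF xs).isHom (hs b)).cx g).bd (hP g hg n _ (((gamF xs).isHom (hp b)).mem hz)
    ((((gamF xs).isHom (hp b)).cx g).cyc hz h0))

lemma mem_ring {g : G} {n : ℤ} {r : R} : r ∈ (ring A).gr g n ↔ r ∈ A g ∧ (n ≠ 0 → r = 0) := by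
  change r ∈ (if n = 0 then (A g).toAddSubgroup else ⊥) ↔ _
  split_ifs with h
  · simp [h]
  · exact ⟨fun e => ⟨by rw [AddSubgroup.mem_bot.1 e]; exact zero_mem _, fun _ => e⟩, fun e => e.2 h⟩

end fin

section half
variable {G G₁ G₂ : Type} [AddCommGroup G] [AddCommGroup G₁] [AddCommGroup G₂]

/-- What is used of a tensor product of graded rings, seen from the first factor. -/
structure Half (A₁ : G₁ → Submodule K R₁) (A₂ : G₂ → Submodule K R₂) (A : G → Submodule K R)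
    (i₁ : R₁ →ₐ[K] R) (i₂ : R₂ →ₐ[K] R) (j₁ : G₁ →+ G) (j₂ : G₂ →+ G) : Prop where
  mem : ∀ {g h a b}, a ∈ A₁ g → b ∈ A₂ h → i₁ a * i₂ b ∈ A (j₁ g + j₂ h)
  le : ∀ g h (S : Submodule K R), (∀ a ∈ A₁ g, ∀ b ∈ A₂ h, i₁ a * i₂ b ∈ S) → A (j₁ g + j₂ h) ≤ S
  q : ∀ l : R₂ →ₗ[K] K, ∃ q : R →ₗ[K] R₁, (∀ a b, q (i₁ a * i₂ b) = l b • a) ∧
    ∀ a t, q (i₁ a * t) = a * q t

variable {A₁ : G₁ → Submodule K R₁} {A₂ : G₂ → Submodule K R₂} {A : G → Submodule K R}
  {i₁ : R₁ →ₐ[K] R} {i₂ : R₂ →ₐ[K] R} {j₁ : G₁ →+ G} {j₂ : G₂ →+ G}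
  [SetLike.GradedMonoid A₁] [SetLike.GradedMonoid A₂] [SetLike.GradedMonoid A]
  (H : Half A₁ A₂ A i₁ i₂ j₁ j₂)

include H

lemma Half.mem₁ {g : G₁} {a : R₁} (h : a ∈ A₁ g) : i₁ a ∈ A (j₁ g) := by
  simpa using H.mem h (SetLike.one_mem_graded A₂)

lemma Half.inj (π : R₂ →ₐ[K] K) : Function.Injective i₁ := fun a a' e => by
  obtain ⟨q, h, -⟩ := H.q π.toLinearMap
  have h1 := h a 1
  rw [e, h a' 1] at h1
  simpa using h1.symm

lemma Half.surj (h0 : ∀ r ∈ A₂ 0, ∃ c, algebraMap K R₂ c = r) {g : G₁} {t : R}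
    (ht : t ∈ A (j₁ g)) : ∃ a ∈ A₁ g, i₁ a = t := by
  refine H.le g 0 ((A₁ g).map i₁.toLinearMap) (fun a ha b hb => ?_) (by simpa using ht)
  obtain ⟨c, rfl⟩ := h0 b hb
  exact ⟨c • a, (A₁ g).smul_mem c ha, by simp [Algebra.smul_def, mul_comm]⟩

lemma Half.theta (π : R₂ →ₐ[K] K) (h0 : ∀ r ∈ A₂ 0, ∃ c, algebraMap K R₂ c = r) {C : DGR}
    [Algebra K C.B] {a : C.O → G₁} {θ : C.B →ₐ[K] Matrix C.O C.O R₁} (h : Theta C A₁ a θ) :
    Theta C A (fun o => j₁ (a o)) (i₁.mapMatrix.comp θ) where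
  e o := by
    change (θ (C.e o)).map i₁ = _
    rw [h.e, Matrix.map_single, map_one]
  mem b o' o := by rw [← map_sub]; exact H.mem₁ (h.mem b o' o)
  inj := fun _ _ e => h.inj (Matrix.ext fun o' o => H.inj π (congrFun (congrFun e o') o))
  surj M hM := by
    choose N h1 h2 using fun o' o => H.surj h0 (g := a o' - a o) (by rw [map_sub]; exact hM o' o)
    obtain ⟨b, hb⟩ := h.surj (Matrix.of N) h1
    exact ⟨b, Matrix.ext fun o' o => (congrArg i₁ (congrFun (congrFun hb o') o)).trans (h2 o' o)⟩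

/-- The first factor as a graded map. -/
def Half.gh : GH A₁ (pullA j₁ A) := ⟨i₁, H.mem₁⟩

variable [CharP K 2]

/-- The image of a list of homogeneous elements. -/
def Half.im (xs : List (HE A₁)) : List (HE A) := (xs.map H.gh.he).map (up j₁)

lemma Half.mem_im {xs : List (HE A₁)} {z : HE A} :
    z ∈ H.im xs ↔ ∃ x ∈ xs, z = ⟨i₁ x.x, j₁ x.deg, H.mem₁ x.mem⟩ := by
  simp only [Half.im, List.map_map, List.mem_map, eq_comm]
  rfl

lemma Half.van {xs : List (HE A₁)} {g : G₁} (h : G₂) (hV : Van xs {g} (ring A₁)) :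
    Van (H.im xs) {j₁ g + j₂ h} (ring A) := by
  classical
  let w := Module.Basis.ofVectorSpace K (A₂ h)
  obtain ⟨ρ, hρ⟩ := (A₂ h).subtype.exists_leftInverse_of_injective (A₂ h).ker_subtype
  choose q q1 q2 using fun b => H.q (w.coord b ∘ₗ ρ)
  let N := H.gh.res (pull j₁ ((ring A).tg (j₂ h)))
  let p : _ → N.M →ₗ[R₁] (ring A₁).M := fun b => ⟨⟨q b, (q b).map_add⟩, q2 b⟩
  let s : _ → (ring A₁).M →ₗ[R₁] N.M := fun b => LinearMap.toSpanSingleton R₁ N.M (i₂ (w b))
  have key : Van xs {g} N := by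
    refine van_of_sum (p := p) (s := s) (fun b => ⟨fun {g' n t} ht => ?_, fun _ => ?_⟩)
      (fun b => ⟨fun {g' n a} ha => ?_, fun _ => ?_⟩) (fun g' n t ht => ?_) hV
    · obtain ⟨h1, h2⟩ := (mem_ring (A := A)).1 ht
      refine mem_ring.2 ⟨H.le g' h ((A₁ g').comap (q b)) (fun a ha y _ => ?_) h1, fun hn => ?_⟩
      · rw [Submodule.mem_comap, q1]; exact (A₁ g').smul_mem _ ha
      · rw [h2 hn]; exact (q b).map_zero
    · exact (map_zero (p b)).symm
    · obtain ⟨h1, h2⟩ := mem_ring.1 ha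
      exact (mem_ring (A := A)).2 ⟨H.mem h1 (w b).2, fun hn => by rw [h2 hn]; exact map_zero (s b)⟩
    · exact (map_zero (s b)).symm
    · let W : Submodule K R :=
        { carrier := {t | ∀ᶠ S in atTop, ∑ b ∈ S, i₁ (q b t) * i₂ (w b) = t}
          add_mem' := fun h1 h2 => by
            filter_upwards [h1, h2] with S e1 e2
            simp only [map_add, add_mul, Finset.sum_add_distrib, e1, e2]
          zero_mem' := Eventually.of_forall fun _ => by simp
          smul_mem' := fun c _ h1 => by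
            filter_upwards [h1] with S e1
            simp only [map_smul, smul_mul_assoc, ← Finset.smul_sum, e1] }
      have h1 : t ∈ W := H.le g' h W (fun a _ y hy => by
        filter_upwards [eventually_ge_atTop (w.repr ⟨y, hy⟩).support] with S hS
        have e1 : ρ y = ⟨y, hy⟩ := LinearMap.congr_fun hρ ⟨y, hy⟩
        have e2 := w.linearCombination_repr ⟨y, hy⟩
        rw [Finsupp.linearCombination_apply,
          Finsupp.sum_of_support_subset _ hS (fun i c => c • w i) fun _ _ => zero_smul _ _] at e2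
        have e3 : ∑ b ∈ S, w.repr ⟨y, hy⟩ b • (w b : R₂) = y := by
          simpa using congrArg Subtype.val e2
        conv_rhs => rw [← e3]
        simp only [q1, LinearMap.comp_apply, e1, Module.Basis.coord_apply, map_smul, map_sum,
          Finset.mul_sum, smul_mul_assoc, mul_smul_comm]) ((mem_ring (A := A)).1 ht).1
      filter_upwards [h1] with S e1
      rw [LinearMap.sum_apply]
      exact e1
  rintro _ rfl
  exact ((gamF _).acyc_tg _ _).1 ((van_pull j₁ H.gh xs _ g).1 key _ rfl)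

end half

end PR
end FMX
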