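import Pool.Agent.MP_0e6a9f_ag.H70.ProdA

/-! The product of two towers and of two realizations. -/

set_option autoImplicit false
set_option linter.unusedSectionVars false

open FMD FMD.DG TensorProduct Sum
open FMD.DGR (tens tm)
open Algebra.TensorProduct (includeLeft includeRight tmul_mul_tmul tmul_pow)

noncomputable section
namespace FMX
namespace PR

variable {K : Type} [Field K]

section gen
variable {T : Tower K} {B : T.G → Submodule K T.R}
  (hB : ∀ v g, ∀ r ∈ B g, T.y v * r ∈ B (T.deg v + g))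
include hB

lemma ch_mul (d : T.Chart) {g : T.G} {r : T.R} (hr : r ∈ B g) :
    (T.ch d).x * r ∈ B ((T.ch d).deg + g) := by
  have key : ∀ s : Finset T.ι, (∏ i ∈ s, T.y (d.1 i)) * r ∈ B (∑ i ∈ s, T.deg (d.1 i) + g) := by
    intro s
    induction s using Finset.induction_on with
    | empty => simpa using hr
    | insert i s hi ih =>
      rw [Finset.prod_insert hi, Finset.sum_insert hi, mul_assoc, add_assoc]
      exact hB _ _ _ ih
  exact key _

lemma ch_pow_mul (d : T.Chart) (k : ℕ) {g : T.G} {r : T.R} (hr : r ∈ B g) :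
    (T.ch d).x ^ k * r ∈ B (k • (T.ch d).deg + g) := by
  induction k with
  | zero => simpa using hr
  | succ k ih =>
    rw [pow_succ', succ_nsmul', mul_assoc, add_assoc]
    exact ch_mul hB d ih

lemma raise (d : T.Chart) {k : ℕ} (l : ℕ) {g : T.G} {r : T.R}
    (hr : (T.ch d).x ^ k * r ∈ B (k • (T.ch d).deg + g)) :
    (T.ch d).x ^ (l + k) * r ∈ B ((l + k) • (T.ch d).deg + g) := by
  rw [pow_add, add_nsmul, mul_assoc, add_assoc]
  exact ch_pow_mul hB d l hr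

/-- Generation along a map of towers. -/
lemma gen_side {T₁ : Tower K} (ok : T₁.OK) (i : T₁.R →ₐ[K] T.R) (j : T₁.G →+ T.G)
    (σ : T₁.Y → T.Y) (h1 : ∀ v, T.y (σ v) = i (T₁.y v)) (h2 : ∀ v, T.deg (σ v) = j (T₁.deg v))
    (d : T₁.Chart) {g : T₁.G} {r : T₁.R} (hr : r ∈ T₁.A g) : ∃ k : ℕ, ∀ l h, ∀ s ∈ B h,
      i ((T₁.ch d).x ^ (l + k) * r) * s ∈ B (j ((l + k) • (T₁.ch d).deg + g) + h) := by
  let B₁ : T₁.G → Submodule K T₁.R := fun g =>
    { carrier := {r | ∀ h, ∀ s ∈ B h, i r * s ∈ B (j g + h)}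
      add_mem' := fun a b h s hs => by rw [map_add, add_mul]; exact add_mem (a h s hs) (b h s hs)
      zero_mem' := fun h s _ => by rw [map_zero, zero_mul]; exact zero_mem _
      smul_mem' := fun c _ a h s hs => by
        rw [map_smul, smul_mul_assoc]; exact (B _).smul_mem c (a h s hs) }
  have hB₁ : ∀ v g, ∀ r ∈ B₁ g, T₁.y v * r ∈ B₁ (T₁.deg v + g) := fun v g r a h s hs => by
    rw [map_mul, map_add, mul_assoc, add_assoc, ← h1, ← h2]
    exact hB _ _ _ (a h s hs)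
  obtain ⟨k, hk⟩ := ok.gen B₁ (fun h s hs => by simpa using hs) hB₁ d g r hr
  exact ⟨k, fun l => raise hB₁ d l hk⟩

end gen

lemma nice_ne {T : Tower K} (ok : T.OK) : ∃ y : T.R, PLAt K y := by
  obtain ⟨S, h1, h2⟩ := ok.nice
  obtain ⟨π, d, hd⟩ := ok.pt
  rcases S.eq_empty_or_nonempty with rfl | ⟨d', hd'⟩
  · obtain ⟨k, hk⟩ := h2 d
    rw [Set.image_empty, Ideal.span_empty, Ideal.mem_bot] at hk
    exact absurd (pow_eq_zero_iff'.1 ((map_pow π _ k).symm.trans (by rw [hk, map_zero]))).1 hd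
  · exact ⟨_, h1 d' hd'⟩

variable (T₁ T₂ : Tower K)

/-- The first inclusion of grading groups. -/
def jl : T₁.G →+ (T₁.ι ⊕ T₂.ι → ℤ) where
  toFun g := Sum.elim g 0
  map_zero' := by funext i; cases i <;> rfl
  map_add' _ _ := by funext i; cases i <;> simp

/-- The second inclusion of grading groups. -/
def jr : T₂.G →+ (T₁.ι ⊕ T₂.ι → ℤ) where
  toFun g := Sum.elim 0 g
  map_zero' := by funext i; cases i <;> rfl
  map_add' _ _ := by funext i; cases i <;> simp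

/-- The grading of the tensor product. -/
def gr (g : T₁.ι ⊕ T₂.ι → ℤ) : Submodule K (T₁.R ⊗[K] T₂.R) :=
  Submodule.map₂ (TensorProduct.mk K _ _) (T₁.A fun i => g (inl i)) (T₂.A fun i => g (inr i))

variable {T₁ T₂}

lemma j_split (g : T₁.ι ⊕ T₂.ι → ℤ) :
    g = jl T₁ T₂ (fun i => g (inl i)) + jr T₁ T₂ fun i => g (inr i) := by
  funext i; cases i <;> simp [jl, jr]

lemma gr_j (g : T₁.G) (h : T₂.G) : gr T₁ T₂ (jl T₁ T₂ g + jr T₁ T₂ h) =
    Submodule.map₂ (TensorProduct.mk K _ _) (T₁.A g) (T₂.A h) := by simp [gr, jl, jr]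

lemma tmul_mem {g : T₁.ι ⊕ T₂.ι → ℤ} {a : T₁.R} {b : T₂.R} (ha : a ∈ T₁.A fun i => g (inl i))
    (hb : b ∈ T₂.A fun i => g (inr i)) : a ⊗ₜ[K] b ∈ gr T₁ T₂ g :=
  Submodule.apply_mem_map₂ _ ha hb

lemma gr_le {g : T₁.ι ⊕ T₂.ι → ℤ} {S : Submodule K (T₁.R ⊗[K] T₂.R)}
    (h : ∀ a ∈ T₁.A fun i => g (inl i), ∀ b ∈ T₂.A fun i => g (inr i), a ⊗ₜ[K] b ∈ S) :
    gr T₁ T₂ g ≤ S := Submodule.map₂_le.2 h

instance : SetLike.GradedMonoid (gr T₁ T₂) where
  one_mem := tmul_mem (SetLike.one_mem_graded T₁.A) (SetLike.one_mem_graded T₂.A)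
  mul_mem g h u v hu hv := gr_le (S := (gr T₁ T₂ (g + h)).comap (LinearMap.mulRight K v))
    (fun a ha b hb => gr_le (S := (gr T₁ T₂ (g + h)).comap (LinearMap.mulLeft K (a ⊗ₜ b)))
      (fun a' ha' b' hb' => by
        rw [Submodule.mem_comap, LinearMap.mulLeft_apply, tmul_mul_tmul]
        exact tmul_mem (SetLike.mul_mem_graded ha ha') (SetLike.mul_mem_graded hb hb')) hv) hu

lemma il_ir (a : T₁.R) (b : T₂.R) :
    includeLeft (S := K) a * includeRight b = a ⊗ₜ[K] b := by simp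

lemma halfL : Half T₁.A T₂.A (gr T₁ T₂) includeLeft includeRight (jl T₁ T₂) (jr T₁ T₂) where
  mem ha hb := by rw [gr_j, il_ir]; exact Submodule.apply_mem_map₂ _ ha hb
  le g h S hS := by
    rw [gr_j]
    exact Submodule.map₂_le.2 fun a ha b hb => by simpa using hS a ha b hb
  q l := ⟨(TensorProduct.rid K T₁.R).toLinearMap ∘ₗ l.lTensor T₁.R, fun a b => by simp,
    fun a t => by
      induction t with
      | zero => simp
      | tmul x y => simp
      | add x y hx hy => simp only [mul_add, map_add, hx, hy]⟩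

lemma halfR : Half T₂.A T₁.A (gr T₁ T₂) includeRight includeLeft (jr T₁ T₂) (jl T₁ T₂) where
  mem ha hb := by rw [add_comm, gr_j, mul_comm, il_ir]; exact Submodule.apply_mem_map₂ _ hb ha
  le g h S hS := by
    rw [add_comm, gr_j]
    exact Submodule.map₂_le.2 fun a ha b hb => by simpa using hS b hb a ha
  q l := ⟨(TensorProduct.lid K T₂.R).toLinearMap ∘ₗ l.rTensor T₂.R, fun a b => by simp,
    fun a t => by
      induction t with
      | zero => simp
      | tmul x y => simp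
      | add x y hx hy => simp only [mul_add, map_add, hx, hy]⟩

lemma degL (v : T₁.Y) : (Pi.single (inl (T₁.blk v)) 1 -
    fun j => ((Sum.elim (T₁.n v) (0 : T₂.ι → ℕ) j : ℕ) : ℤ)) = jl T₁ T₂ (T₁.deg v) := by
  funext i; cases i <;> simp [jl, Tower.deg, Pi.single_apply]

lemma degR (v : T₂.Y) : (Pi.single (inr (T₂.blk v)) 1 -
    fun j => ((Sum.elim (0 : T₁.ι → ℕ) (T₂.n v) j : ℕ) : ℤ)) = jr T₁ T₂ (T₂.deg v) := by
  funext i; cases i <;> simp [jr, Tower.deg, Pi.single_apply]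

variable (T₁ T₂) in
/-- The product of two towers. -/
@[reducible] def pT : Tower K where
  ι := T₁.ι ⊕ T₂.ι
  Y := T₁.Y ⊕ T₂.Y
  ht := Sum.elim T₁.ht T₂.ht
  blk := Sum.map T₁.blk T₂.blk
  n := Sum.elim (fun v => Sum.elim (T₁.n v) 0) fun v => Sum.elim 0 (T₂.n v)
  R := T₁.R ⊗[K] T₂.R
  A := gr T₁ T₂
  y := Sum.elim (fun v => includeLeft (S := K) (T₁.y v)) fun v => includeRight (T₂.y v)
  mem := by
    rintro (v | v)
    · exact (degL v).symm ▸ halfL.mem₁ (T₁.mem v)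
    · exact (degR v).symm ▸ halfR.mem₁ (T₂.mem v)

/-- The product of two charts. -/
def pch (d₁ : T₁.Chart) (d₂ : T₂.Chart) : (pT T₁ T₂).Chart :=
  ⟨Sum.map d₁.1 d₂.1, by
    rintro (i | i)
    exacts [congrArg inl (d₁.2 i), congrArg inr (d₂.2 i)]⟩

lemma pch_surj (d : (pT T₁ T₂).Chart) : ∃ d₁ d₂, d = pch d₁ d₂ := by
  have h1 : ∀ i, ∃ v, d.1 (inl i) = inl v ∧ T₁.blk v = i := fun i => by
    have := d.2 (inl i)
    rcases h : d.1 (inl i) with v | v <;> rw [h] at this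
    · exact ⟨v, rfl, inl_injective this⟩
    · exact absurd this inr_ne_inl
  have h2 : ∀ i, ∃ v, d.1 (inr i) = inr v ∧ T₂.blk v = i := fun i => by
    have := d.2 (inr i)
    rcases h : d.1 (inr i) with v | v <;> rw [h] at this
    · exact absurd this inl_ne_inr
    · exact ⟨v, rfl, inr_injective this⟩
  choose d₁ a1 a2 using h1
  choose d₂ b1 b2 using h2
  refine ⟨⟨d₁, a2⟩, ⟨d₂, b2⟩, Subtype.ext (funext ?_)⟩
  rintro (i | i)
  exacts [a1 i, b1 i]

lemma pch_x (d₁ : T₁.Chart) (d₂ : T₂.Chart) : ((pT T₁ T₂).ch (pch d₁ d₂)).x =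
    includeLeft (S := K) (T₁.ch d₁).x * includeRight (T₂.ch d₂).x := by
  simp only [Tower.ch, map_prod]
  exact Fintype.prod_sum_type _

lemma pch_deg (d₁ : T₁.Chart) (d₂ : T₂.Chart) : ((pT T₁ T₂).ch (pch d₁ d₂)).deg =
    jl T₁ T₂ (T₁.ch d₁).deg + jr T₁ T₂ (T₂.ch d₂).deg := by
  simp only [Tower.ch, map_sum, ← degL, ← degR]
  exact Fintype.sum_sum_type _

lemma pT_ok (h₁ : T₁.OK) (h₂ : T₂.OK) : (pT T₁ T₂).OK where
  hn := by
    rintro (v | v) (j | j) h
    exacts [h₁.hn v j h, absurd rfl h, absurd rfl h, h₂.hn v j h]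
  dom := by
    obtain ⟨y₁, a⟩ := nice_ne h₁
    obtain ⟨y₂, b⟩ := nice_ne h₂
    exact plAt_dom (plAt_tmul a b)
  span r := by
    induction r using TensorProduct.induction_on with
    | zero => exact zero_mem _
    | add x y hx hy => exact add_mem hx hy
    | tmul a b =>
      induction h₁.span a using Submodule.iSup_induction' with
      | zero => rw [zero_tmul]; exact zero_mem _
      | add x y _ _ hx hy => rw [add_tmul]; exact add_mem hx hy
      | mem g a ha =>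
        induction h₂.span b using Submodule.iSup_induction' with
        | zero => rw [tmul_zero]; exact zero_mem _
        | add x y _ _ hx hy => rw [tmul_add]; exact add_mem hx hy
        | mem h b hb => exact Submodule.mem_iSup_of_mem (Sum.elim g h) (tmul_mem ha hb)
  ind := by
    obtain ⟨p, a1, a2⟩ := exists_pr h₁.span h₁.ind
    obtain ⟨q, b1, b2⟩ := exists_pr h₂.span h₂.ind
    refine ind_of_proj (fun g => (TensorProduct.map (p fun i => g (inl i))
      (q fun i => g (inr i))).toAddMonoidHom) (fun g v hv => ?_) fun g h hne v hv => ?_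
    · exact gr_le (S := LinearMap.eqLocus (TensorProduct.map (p _) (q _)) LinearMap.id)
        (fun a ha b hb => by simp [a1 _ a ha, b1 _ b hb]) hv
    · refine gr_le (S := LinearMap.ker (TensorProduct.map (p _) (q _))) (fun a ha b hb => ?_) hv
      rw [LinearMap.mem_ker, TensorProduct.map_tmul]
      by_cases e : (fun i => h (inl i)) = fun i => g (inl i)
      · rw [b2 _ _ (fun e' => hne (by rw [j_split h, j_split g, e, e'])) b hb, tmul_zero]
      · rw [a2 _ _ e a ha, zero_tmul]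
  gen B h1 hB d g r hr := by
    let W : Submodule K (T₁.R ⊗[K] T₂.R) :=
      { carrier := {r | ∃ k : ℕ, ((pT T₁ T₂).ch d).x ^ k * r ∈ B (k • ((pT T₁ T₂).ch d).deg + g)}
        add_mem' := by
          rintro u v ⟨k, hk⟩ ⟨l, hl⟩
          exact ⟨l + k, by
            rw [mul_add]
            exact add_mem (raise hB d l hk) (add_comm k l ▸ raise hB d k hl)⟩
        zero_mem' := ⟨0, by rw [mul_zero]; exact zero_mem _⟩
        smul_mem' := by
          rintro c u ⟨k, hk⟩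
          exact ⟨k, by rw [mul_smul_comm]; exact (B _).smul_mem c hk⟩ }
    refine gr_le (S := W) (fun a ha b hb => ?_) hr
    obtain ⟨d₁, d₂, rfl⟩ := pch_surj d
    obtain ⟨k, hk⟩ := gen_side hB h₁ includeLeft (jl T₁ T₂) inl (fun _ => rfl) degL d₁ ha
    obtain ⟨l, hl⟩ := gen_side hB h₂ includeRight (jr T₁ T₂) inr (fun _ => rfl) degR d₂ hb
    refine ⟨l + k, ?_⟩
    have h2 := hk l _ _ (hl k 0 1 h1)
    rw [add_comm k l] at h2
    convert h2 using 1
    · rw [pch_deg, map_add, map_add, map_nsmul, map_nsmul, smul_add, add_zero,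
        add_add_add_comm, ← j_split]
    · rw [pch_x, ← il_ir, map_mul, map_mul, map_pow, map_pow]
      ring
  nice := by
    obtain ⟨S₁, a1, a2⟩ := h₁.nice
    obtain ⟨S₂, b1, b2⟩ := h₂.nice
    refine ⟨Set.image2 pch S₁ S₂, ?_, fun d => ?_⟩
    · rintro _ ⟨d₁, e1, d₂, e2, rfl⟩
      rw [pch_x, il_ir]
      exact plAt_tmul (a1 d₁ e1) (b1 d₂ e2)
    · obtain ⟨d₁, d₂, rfl⟩ := pch_surj d
      have h1 := Ideal.map_radical_le (includeLeft (R := K) (S := K) (B := T₂.R))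
        (Ideal.mem_map_of_mem _ (a2 d₁))
      have h2 := Ideal.map_radical_le (includeRight (R := K) (A := T₁.R))
        (Ideal.mem_map_of_mem _ (b2 d₂))
      have h3 := Ideal.mul_le_inf (Ideal.mul_mem_mul h1 h2)
      rw [← Ideal.radical_mul] at h3
      rw [pch_x]
      refine Ideal.radical_mono ?_ h3
      rw [Ideal.map_span, Ideal.map_span, Ideal.span_mul_span', Ideal.span_le]
      rintro _ ⟨_, ⟨_, ⟨c₁, e1, rfl⟩, rfl⟩, _, ⟨_, ⟨c₂, e2, rfl⟩, rfl⟩, rfl⟩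
      exact Ideal.subset_span ⟨pch c₁ c₂, ⟨c₁, e1, c₂, e2, rfl⟩, pch_x c₁ c₂⟩
  pt := by
    obtain ⟨π₁, d₁, a⟩ := h₁.pt
    obtain ⟨π₂, d₂, b⟩ := h₂.pt
    exact ⟨Algebra.TensorProduct.productMap π₁ π₂, pch d₁ d₂, by
      rw [pch_x, il_ir]; exact mul_ne_zero a b⟩

variable [CharP K 2]

lemma pT_van {g : T₁.G} {h : T₂.G} (h₁ : Van T₁.xs {g} (ring T₁.A))
    (h₂ : Van T₂.xs {h} (ring T₂.A)) :
    Van (pT T₁ T₂).xs {jl T₁ T₂ g + jr T₁ T₂ h} (ring (pT T₁ T₂).A) := by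
  refine (van_two (xs := halfL.im T₁.xs) (ys := halfR.im T₂.xs)
    (V := {γ | (fun i => γ (inl i)) = g}) (U := {γ | (fun i => γ (inr i)) = h})
    (fun z hz γ hγ => ?_) (van_of_forall fun γ hγ => ?_) (van_of_forall fun γ hγ => ?_)
    (fun T hT z hz => ?_) (fun T hT z hz => ?_) fun x hx y hy T hT => ?_).mono ?_
  · obtain ⟨x, -, rfl⟩ := halfL.mem_im.1 hz
    exact (funext fun i => zero_add _).trans hγ
  · rw [j_split γ, show (fun i => γ (inl i)) = g from hγ]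
    exact halfL.van _ h₁
  · rw [j_split γ, show (fun i => γ (inr i)) = h from hγ, add_comm]
    exact halfR.van _ h₂
  · obtain ⟨d, rfl⟩ := mem_lst.1 hz
    obtain ⟨d₁, d₂, rfl⟩ := pch_surj d
    refine torsOn_of_pow 1 (m := includeRight (T₂.ch d₂).x) ?_ ((pow_one _).trans (pch_x _ _))
      (hT _ (halfL.mem_im.2 ⟨_, mem_lst.2 ⟨d₁, rfl⟩, rfl⟩))
    rw [one_nsmul, pch_deg, add_sub_cancel_left]
    exact halfR.mem₁ (T₂.ch d₂).mem
  · obtain ⟨d, rfl⟩ := mem_lst.1 hz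
    obtain ⟨d₁, d₂, rfl⟩ := pch_surj d
    refine torsOn_of_pow 1 (m := includeLeft (S := K) (T₁.ch d₁).x) ?_
      (((pow_one _).trans (pch_x _ _)).trans (mul_comm _ _))
      (hT _ (halfR.mem_im.2 ⟨_, mem_lst.2 ⟨d₂, rfl⟩, rfl⟩))
    rw [one_nsmul, pch_deg, add_sub_cancel_right]
    exact halfL.mem₁ (T₁.ch d₁).mem
  · obtain ⟨_, e1, rfl⟩ := halfL.mem_im.1 hx
    obtain ⟨_, e2, rfl⟩ := halfR.mem_im.1 hy
    obtain ⟨d₁, rfl⟩ := mem_lst.1 e1
    obtain ⟨d₂, rfl⟩ := mem_lst.1 e2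
    refine torsOn_of_pow 1 (m := 1) ?_ (by rw [pow_one, mul_one, pch_x]; rfl)
      (hT _ (mem_lst.2 ⟨pch d₁ d₂, rfl⟩))
    rw [one_nsmul, pch_deg]
    exact (sub_self (jl T₁ T₂ (T₁.ch d₁).deg + jr T₁ T₂ (T₂.ch d₂).deg)).symm ▸
      SetLike.one_mem_graded _
  · rintro _ rfl
    exact ⟨funext fun i => add_zero _, funext fun i => zero_add _⟩

variable {C₁ C₂ : DGR} [Algebra K C₁.B] [Algebra K C₂.B] [C₁.KL K] [C₂.KL K]
  (R₁ : Real K C₁) (R₂ : Real K C₂)

/-- The Kronecker product of the two matrix models. -/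
def kr : (tens K C₁ C₂).B →ₐ[K] Matrix (C₁.O × C₂.O) (C₁.O × C₂.O) (R₁.T.R ⊗[K] R₂.T.R) :=
  (Matrix.kroneckerTMulAlgEquiv C₁.O C₂.O K K R₁.T.R R₂.T.R).toAlgHom.comp
    (Algebra.TensorProduct.map R₁.θ R₂.θ)

lemma kr_tm (x : C₁.B) (y : C₂.B) :
    kr R₁ R₂ (tm K C₁ C₂ x y) = Matrix.kroneckerTMul K (R₁.θ x) (R₂.θ y) := rfl

lemma single_mem {C : DGR} [Algebra K C.B] (R : Real K C) {o' o : C.O} {r : R.T.R}
    (h : r ∈ R.T.A (R.a o' - R.a o)) : ∃ b, R.θ b = Matrix.single o' o r :=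
  R.theta.surj _ fun p' p => by
    rw [Matrix.single_apply]
    split_ifs with e
    · rw [← e.1, ← e.2]; exact h
    · exact zero_mem _

lemma a_sub (o' o : C₁.O × C₂.O) : jl R₁.T R₂.T (R₁.a o'.1) + jr R₁.T R₂.T (R₂.a o'.2) -
    (jl R₁.T R₂.T (R₁.a o.1) + jr R₁.T R₂.T (R₂.a o.2)) =
    jl R₁.T R₂.T (R₁.a o'.1 - R₁.a o.1) + jr R₁.T R₂.T (R₂.a o'.2 - R₂.a o.2) := by
  rw [map_sub, map_sub]; abel

lemma kr_theta : Theta (tens K C₁ C₂) (gr R₁.T R₂.T)
    (fun o => jl R₁.T R₂.T (R₁.a o.1) + jr R₁.T R₂.T (R₂.a o.2)) (kr R₁ R₂) where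
  e o := (kr_tm R₁ R₂ _ _).trans (by
    rw [R₁.theta.e, R₂.theta.e]
    exact Matrix.single_kroneckerTMul_single K _ _ _ _ _ _)
  mem b o' o := by
    rw [a_sub, gr_j]
    induction b using DGR.tens_ind with
    | zero => rw [map_zero]; exact zero_mem _
    | add x y hx hy => rw [map_add]; exact add_mem hx hy
    | tmul x y => exact Submodule.apply_mem_map₂ _ (R₁.theta.mem x _ _) (R₂.theta.mem y _ _)
  inj := (Matrix.kroneckerTMulAlgEquiv C₁.O C₂.O K K R₁.T.R R₂.T.R).injective.comp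
    (map_inj R₁.theta.inj R₂.theta.inj)
  surj M hM := by
    rw [Matrix.matrix_eq_sum_single M]
    refine (sum_mem fun o' _ => sum_mem fun o _ => ?_ : _ ∈ LinearMap.range (kr R₁ R₂).toLinearMap)
    have h := hM o' o
    rw [a_sub, gr_j] at h
    refine (Submodule.map₂_le (r := (LinearMap.range (kr R₁ R₂).toLinearMap).comap
      (Matrix.singleLinearMap K o' o))).2 (fun a ha b hb => ?_) h
    obtain ⟨x, hx⟩ := single_mem R₁ ha
    obtain ⟨y, hy⟩ := single_mem R₂ hb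
    exact ⟨tm K C₁ C₂ x y, (kr_tm R₁ R₂ x y).trans (by
      rw [hx, hy]; exact Matrix.single_kroneckerTMul_single K _ _ _ _ _ _)⟩

end PR

open PR

theorem prod (K : Type) [Field K] [CharP K 2] : ProdStmt K := by
  intro C₁ C₂ _ _ _ _ R₁ R₂
  obtain ⟨π₁, -⟩ := R₁.ok.pt
  obtain ⟨π₂, -⟩ := R₂.ok.pt
  refine ⟨⟨pT R₁.T R₂.T, pT_ok R₁.ok R₂.ok, _, kr R₁ R₂, kr_theta R₁ R₂, fun o' o => ?_,
    fun r hr => ?_⟩, includeLeft, includeRight, jl _ _, jr _ _, fun _ _ => rfl,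
    fun x y _ _ _ _ => (il_ir _ _).symm, halfL.theta π₂ R₂.zero R₁.theta,
    halfR.theta π₁ R₁.zero R₂.theta⟩
  · rw [a_sub]
    exact pT_van (R₁.van _ _) (R₂.van _ _)
  · obtain ⟨a, ha, rfl⟩ := (halfL (T₁ := R₁.T)).surj R₂.zero (g := 0) (t := r)
      (by rw [map_zero]; exact hr)
    obtain ⟨c, rfl⟩ := R₁.zero a ha
    exact ⟨c, (AlgHom.commutes _ c).symm⟩

end FMX
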